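import Pool.Agent.U69.SP.Defs

set_option autoImplicit false

namespace Pool.Agent.U69.SP

open Cardinal Set

/-- A sequence of subsets with the omega property. -/
def OmegaSeq (X : Set ℝ) (V : ℕ → Set ℝ) : Prop :=
  ∀ F : Set ℝ, F.Finite → F ⊆ X → ∃ n, F ⊆ V n

theorem exists_countable_subcover {X : Set ℝ} {U : Set (Set ℝ)} (hU : IsOmegaCover X U) :
    ∃ C ⊆ U, C.Countable ∧ ∀ F : Set ℝ, F.Finite → F ⊆ X → ∃ V ∈ C, F ⊆ V := by
  classical
  obtain ⟨⟨hop, hcov, hprop⟩, hom⟩ := hU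
  -- finite unions of basis elements
  let 𝓑 : Set (Set ℝ) := TopologicalSpace.countableBasis ℝ
  have h𝓑 : 𝓑.Countable := TopologicalSpace.countable_countableBasis ℝ
  let 𝓕 : Set (Set (Set ℝ)) := {T | T.Finite ∧ T ⊆ 𝓑}
  have h𝓕 : 𝓕.Countable := Set.countable_setOf_finite_subset h𝓑
  let P : Set (Set ℝ) → Prop := fun T => ∃ V ∈ U, ⋃₀ T ∩ X ⊆ V
  let g : Set (Set ℝ) → Set ℝ := fun T => if h : P T then h.choose else ∅
  refine ⟨g '' {T ∈ 𝓕 | P T}, ?_, ?_, ?_⟩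
  · rintro _ ⟨T, ⟨-, hT⟩, rfl⟩
    simp only [g, dif_pos hT]
    exact hT.choose_spec.1
  · exact (h𝓕.mono (fun T hT => hT.1)).image g
  · intro F hF hFX
    obtain ⟨V, hV, hFV⟩ := hom F hF hFX
    obtain ⟨O, hO, rfl⟩ := hop V hV
    have key : ∀ x ∈ F, ∃ b ∈ 𝓑, x ∈ b ∧ b ⊆ O := by
      intro x hx
      exact (TopologicalSpace.isBasis_countableBasis ℝ).exists_subset_of_mem_open (hFV hx).1 hO
    choose! b hb hxb hbO using key
    have hT : (b '' F) ∈ 𝓕 := ⟨hF.image b, by rintro _ ⟨x, hx, rfl⟩; exact hb x hx⟩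
    have hP : P (b '' F) := by
      refine ⟨O ∩ X, hV, ?_⟩
      rintro y ⟨⟨_, ⟨x, hx, rfl⟩, hy⟩, hyX⟩
      exact ⟨hbO x hx hy, hyX⟩
    refine ⟨g (b '' F), ⟨b '' F, ⟨hT, hP⟩, rfl⟩, ?_⟩
    simp only [g, dif_pos hP]
    intro x hx
    apply hP.choose_spec.2
    exact ⟨⟨b x, ⟨x, hx, rfl⟩, hxb x hx⟩, hFX hx⟩

/-- Infinitely many members contain a given finite set. -/
theorem infinite_of_omega {X : Set ℝ} {U C : Set (Set ℝ)} (hU : IsOpenCover X U) (hC : C ⊆ U)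
    (h : ∀ F : Set ℝ, F.Finite → F ⊆ X → ∃ V ∈ C, F ⊆ V) {F : Set ℝ} (hF : F.Finite)
    (hFX : F ⊆ X) : {V ∈ C | F ⊆ V}.Infinite := by
  classical
  intro hfin
  have hpt : ∀ V ∈ U, ∃ x ∈ X, x ∉ V := by
    intro V hV
    by_contra hcon
    push Not at hcon
    obtain ⟨O, -, rfl⟩ := hU.isOpen V hV
    have : O ∩ X = X := Subset.antisymm inter_subset_right (fun x hx => hcon x hx)
    rw [this] at hV
    exact hU.proper hV
  choose! p hp hpV using hpt
  obtain ⟨V, hV, hFV⟩ := h (F ∪ p '' {V ∈ C | F ⊆ V}) (hF.union (hfin.image p))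
    (union_subset hFX (by rintro _ ⟨V, hV, rfl⟩; exact hp V (hC hV.1)))
  have h1 : F ⊆ V := subset_union_left.trans hFV
  exact hpV V (hC hV) (hFV (Or.inr ⟨V, ⟨hV, h1⟩, rfl⟩))

/-- An injective enumeration of a countable ω-subcover. -/
theorem exists_seq {X : Set ℝ} {U : Set (Set ℝ)} (hU : IsOmegaCover X U) :
    ∃ V : ℕ → Set ℝ, Function.Injective V ∧ (∀ n, V n ∈ U) ∧
      ∀ F : Set ℝ, F.Finite → F ⊆ X → {n | F ⊆ V n}.Infinite := by
  obtain ⟨C, hCU, hC, hF⟩ := exists_countable_subcover hU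
  have hinf : C.Infinite := by
    have := infinite_of_omega hU.1 hCU hF (F := ∅) finite_empty (empty_subset _)
    exact this.mono (fun V hV => hV.1)
  haveI := hC.to_subtype
  haveI : Infinite C := hinf.to_subtype
  obtain ⟨e⟩ : Nonempty (ℕ ≃ C) := by
    haveI : Encodable C := Encodable.ofCountable C
    haveI : Denumerable C := Denumerable.ofEncodableOfInfinite C
    exact ⟨(Denumerable.eqv C).symm⟩
  refine ⟨fun n => (e n : Set ℝ), fun a b h => e.injective (Subtype.ext h),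
    fun n => hCU (e n).2, fun F hFf hFX => ?_⟩
  have h1 := infinite_of_omega hU.1 hCU hF hFf hFX
  intro hfin
  apply h1
  refine (hfin.image (fun n => (e n : Set ℝ))).subset ?_
  rintro V ⟨hV, hFV⟩
  refine ⟨e.symm ⟨V, hV⟩, ?_, by simp⟩
  simpa using hFV

/-- A set of indices that splits all traces splits the cover. -/
theorem split_of_index {X : Set ℝ} {U : Set (Set ℝ)} (hU : IsOpenCover X U) {V : ℕ → Set ℝ}
    (hinj : Function.Injective V) (hVU : ∀ n, V n ∈ U) {A : Set ℕ}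
    (hA : ∀ x ∈ X, {n ∈ A | x ∈ V n}.Infinite) (hA' : ∀ x ∈ X, {n | n ∉ A ∧ x ∈ V n}.Infinite) :
    ∃ V W, U = V ∪ W ∧ Disjoint V W ∧
    (∃ V' ⊆ V, IsLargeCover X V') ∧ ∃ W' ⊆ W, IsLargeCover X W' := by
  have hlarge : ∀ B : Set ℕ, (∀ x ∈ X, {n ∈ B | x ∈ V n}.Infinite) →
      IsLargeCover X (V '' B) := by
    intro B hB
    refine ⟨⟨?_, ?_, ?_⟩, ?_⟩
    · rintro _ ⟨n, -, rfl⟩
      exact hU.isOpen _ (hVU n)
    · apply Subset.antisymm
      · rintro x ⟨_, ⟨n, -, rfl⟩, hx⟩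
        obtain ⟨O, -, hO⟩ := hU.isOpen _ (hVU n)
        rw [hO] at hx
        exact hx.2
      · intro x hx
        obtain ⟨n, hn, hxn⟩ := (hB x hx).nonempty
        exact ⟨V n, ⟨n, hn, rfl⟩, hxn⟩
    · rintro ⟨n, -, hn⟩
      exact hU.proper (hn ▸ hVU n)
    · intro x hx
      have := (hB x hx).image hinj.injOn
      refine this.mono ?_
      rintro _ ⟨n, ⟨hn, hxn⟩, rfl⟩
      exact ⟨⟨n, hn, rfl⟩, hxn⟩
  refine ⟨V '' A, U \ V '' A, ?_, disjoint_sdiff_right, ⟨V '' A, Subset.rfl, hlarge A hA⟩,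
    ⟨V '' Aᶜ, ?_, hlarge Aᶜ hA'⟩⟩
  · rw [union_diff_cancel]
    rintro _ ⟨n, -, rfl⟩
    exact hVU n
  · rintro _ ⟨n, hn, rfl⟩
    refine ⟨hVU n, ?_⟩
    rintro ⟨m, hm, hmn⟩
    exact hn (hinj hmn ▸ hm)

/-- A set with an ω-cover is infinite. -/
theorem infinite_of_cover {X : Set ℝ} {U : Set (Set ℝ)} (hU : IsOmegaCover X U) : X.Infinite := by
  intro hX
  obtain ⟨V, hV, hXV⟩ := hU.2 X hX Subset.rfl
  obtain ⟨O, -, rfl⟩ := hU.1.isOpen V hV
  have : O ∩ X = X := Subset.antisymm inter_subset_right hXV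
  rw [this] at hV
  exact hU.1.proper hV

/-- Fewer than `𝔲` points: the property holds. -/
theorem split_of_card_lt {X : Set ℝ} (hX : #X < ultrafilterNumber) : SplitOmegaLarge X := by
  classical
  intro U hU
  obtain ⟨V, hinj, hVU, hF⟩ := exists_seq hU
  have hXinf := infinite_of_cover hU
  by_cases hex : ∃ A : Set ℕ, (∀ x ∈ X, {n ∈ A | x ∈ V n}.Infinite) ∧
      ∀ x ∈ X, {n | n ∉ A ∧ x ∈ V n}.Infinite
  · obtain ⟨A, hA, hA'⟩ := hex
    exact split_of_index hU.1 hinj hVU hA hA'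
  exfalso
  push Not at hex
  -- the filter base
  let b : Finset X × ℕ → Set ℕ := fun q => {n | q.2 ≤ n ∧ ∀ x ∈ q.1, (x : ℝ) ∈ V n}
  have hbinf : ∀ q, (b q).Infinite := by
    intro q
    have h1 := hF (((↑) : X → ℝ) '' (q.1 : Set X)) (q.1.finite_toSet.image _) (by
      rintro _ ⟨x, -, rfl⟩; exact x.2)
    have h2 : ({n | (((↑) : X → ℝ) '' (q.1 : Set X)) ⊆ V n} \ Iio q.2).Infinite :=
      h1.diff (finite_Iio q.2)
    refine h2.mono ?_
    rintro n ⟨hn, hn2⟩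
    refine ⟨not_lt.mp hn2, fun x hx => hn ⟨x, hx, rfl⟩⟩
  let f : Filter ℕ := Filter.generate (range b)
  have hfmem : ∀ s, s ∈ f ↔ ∃ q, b q ⊆ s := by
    intro s
    constructor
    · intro hs
      rw [Filter.mem_generate_iff] at hs
      obtain ⟨t, ht, htf, hts⟩ := hs
      -- finite intersection
      have : ∀ t : Set (Set ℕ), t.Finite → t ⊆ range b → ∃ q, b q ⊆ ⋂₀ t := by
        intro t ht
        refine Set.Finite.induction_on (motive := fun t _ => t ⊆ range b → ∃ q, b q ⊆ ⋂₀ t) t ht ?_ ?_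
        · intro _
          exact ⟨(∅, 0), by simp⟩
        · intro a t _ _ ih hat
          obtain ⟨q, hq⟩ := ih ((subset_insert _ _).trans hat)
          obtain ⟨r, hr⟩ := hat (mem_insert _ _)
          refine ⟨(q.1 ∪ r.1, max q.2 r.2), ?_⟩
          rw [sInter_insert, ← hr]
          intro n hn
          refine ⟨⟨le_trans (le_max_right _ _) hn.1, fun x hx => hn.2 x (Finset.mem_union_right _ hx)⟩,
            hq ⟨le_trans (le_max_left _ _) hn.1, fun x hx => hn.2 x (Finset.mem_union_left _ hx)⟩⟩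
      obtain ⟨q, hq⟩ := this t htf ht
      exact ⟨q, hq.trans hts⟩
    · rintro ⟨q, hq⟩
      exact Filter.mem_of_superset (Filter.mem_generate_of_mem ⟨q, rfl⟩) hq
  have hdec : ∀ s : Set ℕ, sᶜ ∉ f ↔ s ∈ f := by
    intro s
    constructor
    · intro hs
      -- s or sᶜ contains a base set
      by_cases h1 : ∀ x ∈ X, {n ∈ s | x ∈ V n}.Infinite
      · obtain ⟨x, hx, hfin⟩ := hex s h1
        obtain ⟨k, hk⟩ := hfin.bddAbove
        rw [hfmem]
        refine ⟨({⟨x, hx⟩}, k + 1), ?_⟩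
        intro n hn
        by_contra hns
        have h3 : n ∈ {n | n ∉ s ∧ x ∈ V n} := ⟨hns, hn.2 ⟨x, hx⟩ (Finset.mem_singleton_self _)⟩
        have h4 := hk h3
        have h5 : k + 1 ≤ n := hn.1
        omega
      · exfalso
        push Not at h1
        obtain ⟨x, hx, hfin⟩ := h1
        obtain ⟨k, hk⟩ := hfin.bddAbove
        apply hs
        rw [hfmem]
        refine ⟨({⟨x, hx⟩}, k + 1), ?_⟩
        intro n hn hns
        have h3 : n ∈ {n | n ∈ s ∧ x ∈ V n} := ⟨hns, hn.2 ⟨x, hx⟩ (Finset.mem_singleton_self _)⟩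
        have h4 := hk h3
        have h5 : k + 1 ≤ n := hn.1
        omega
    · intro hs hsc
      have h0 : (∅ : Set ℕ) ∈ f := by
        have := Filter.inter_mem hs hsc
        rwa [inter_compl_self] at this
      rw [hfmem] at h0
      obtain ⟨q, hq⟩ := h0
      exact (hbinf q).nonempty.ne_empty (subset_empty_iff.mp hq)
  let u : Ultrafilter ℕ := Ultrafilter.ofComplNotMemIff f hdec
  have hmem : ∀ s, s ∈ u ↔ ∃ q, b q ⊆ s := fun s => hfmem s
  have hbase : IsUltrafilterBase (range b) := by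
    refine ⟨u, ?_, ?_, ?_⟩
    · intro n hn
      rw [hmem] at hn
      obtain ⟨q, hq⟩ := hn
      exact (hbinf q) ((finite_singleton n).subset hq)
    · rintro _ ⟨q, rfl⟩
      rw [hmem]
      exact ⟨q, Subset.rfl⟩
    · intro a ha
      rw [hmem] at ha
      obtain ⟨q, hq⟩ := ha
      exact ⟨b q, ⟨q, rfl⟩, hq⟩
  have hle : ultrafilterNumber ≤ #(range b) := csInf_le' ⟨range b, rfl, hbase⟩
  haveI : Infinite X := hXinf.to_subtype
  have h2 : #(range b) ≤ #X := by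
    refine mk_range_le.trans ?_
    rw [mk_prod]
    simp only [lift_id, mk_finset_of_infinite, mk_nat]
    rw [mul_aleph0_eq (aleph0_le_mk X)]
  exact absurd (hle.trans h2) (not_le.mpr hX)

end Pool.Agent.U69.SP
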