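import Mathlib

/-!
# The property `Split(Ω, Λ)` of sets of reals, its additivity number and the ultrafilter number
-/

set_option autoImplicit false

namespace Pool.Agent.U69.SP

open Cardinal Set

/-- `U` is an open cover of the set of reals `X`: its members are relatively open subsets of `X`,
their union is `X`, and `X` itself is not a member. -/
structure IsOpenCover (X : Set ℝ) (U : Set (Set ℝ)) : Prop where
  isOpen : ∀ V ∈ U, ∃ O : Set ℝ, IsOpen O ∧ V = O ∩ X
  cover : ⋃₀ U = X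
  proper : X ∉ U

/-- The open cover `U` of `X` is large: every point of `X` is in infinitely many members. -/
def IsLargeCover (X : Set ℝ) (U : Set (Set ℝ)) : Prop :=
  IsOpenCover X U ∧ ∀ x ∈ X, {V ∈ U | x ∈ V}.Infinite

/-- The open cover `U` of `X` is an ω-cover: every finite subset of `X` is contained in a member. -/
def IsOmegaCover (X : Set ℝ) (U : Set (Set ℝ)) : Prop :=
  IsOpenCover X U ∧ ∀ F : Set ℝ, F.Finite → F ⊆ X → ∃ V ∈ U, F ⊆ V

/-- `X` has the property `Split(Ω, Λ)`. -/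
def SplitOmegaLarge (X : Set ℝ) : Prop :=
  ∀ U, IsOmegaCover X U → ∃ V W, U = V ∪ W ∧ Disjoint V W ∧
    (∃ V' ⊆ V, IsLargeCover X V') ∧ ∃ W' ⊆ W, IsLargeCover X W'

/-- The additivity number of the family of the sets of reals with the property `Split(Ω, Λ)`. -/
noncomputable def addSplit : Cardinal.{0} :=
  sInf {κ | ∃ F : Set (Set ℝ), #F = κ ∧ (∀ X ∈ F, SplitOmegaLarge X) ∧ ¬ SplitOmegaLarge (⋃₀ F)}

/-- `B` is a base of a nonprincipal ultrafilter on `ℕ`. -/
def IsUltrafilterBase (B : Set (Set ℕ)) : Prop :=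
  ∃ u : Ultrafilter ℕ, (∀ n, ({n} : Set ℕ) ∉ u) ∧ (∀ b ∈ B, b ∈ u) ∧ ∀ a ∈ u, ∃ b ∈ B, b ⊆ a

/-- The ultrafilter number `𝔲`: the least size of a base of a nonprincipal ultrafilter on `ℕ`. -/
noncomputable def ultrafilterNumber : Cardinal.{0} :=
  sInf {κ | ∃ B : Set (Set ℕ), #B = κ ∧ IsUltrafilterBase B}

end Pool.Agent.U69.SP
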