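import Pool.Agent.U69.SP.Upper

set_option autoImplicit false

namespace Pool.Agent.U69.SP

open Cardinal Set

/-- `A` meets all traces of the points of `Y`. -/
def Meets (V : ℕ → Set ℝ) (Y : Set ℝ) (A : Set ℕ) : Prop := ∀ y ∈ Y, {n ∈ A | y ∈ V n}.Infinite

/-- The subsequence with indices in `A` has the omega property. -/
def Big (V : ℕ → Set ℝ) (X : Set ℝ) (A : Set ℕ) : Prop :=
  ∀ F : Set ℝ, F.Finite → F ⊆ X → {n ∈ A | F ⊆ V n}.Infinite

theorem Big.or {V : ℕ → Set ℝ} {X : Set ℝ} {A P Q : Set ℕ} (hA : Big V X A) (h : A ⊆ P ∪ Q) :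
    Big V X P ∨ Big V X Q := by
  by_contra hcon
  unfold Big at hcon
  push Not at hcon
  obtain ⟨⟨F, hF, hFX, h1⟩, ⟨G, hG, hGX, h2⟩⟩ := hcon
  have h3 := hA (F ∪ G) (hF.union hG) (union_subset hFX hGX)
  apply h3
  refine (h1.union h2).subset ?_
  rintro n ⟨hn, hFG⟩
  rcases h hn with hP | hQ
  · exact Or.inl ⟨hP, subset_union_left.trans hFG⟩
  · exact Or.inr ⟨hQ, subset_union_right.trans hFG⟩

theorem Big.diff_finite {V : ℕ → Set ℝ} {X : Set ℝ} {A K : Set ℕ} (hA : Big V X A)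
    (hK : K.Finite) : Big V X (A \ K) := by
  intro F hF hFX
  refine ((hA F hF hFX).sdiff hK).mono ?_
  rintro n ⟨⟨hn, hFn⟩, hnK⟩
  exact ⟨⟨hn, hnK⟩, hFn⟩

theorem exists_halves {V : ℕ → Set ℝ} {X Y : Set ℝ} (hopen : ∀ n, ∃ O, IsOpen O ∧ V n = O ∩ X)
    (hY : SplitOmegaLarge Y) (hYX : Y ⊆ X) {A : Set ℕ} (hA : Big V X A) :
    ∃ P Q : Set ℕ, P ⊆ A ∧ Q ⊆ A ∧ Disjoint P Q ∧ A ⊆ P ∪ Q ∧ Meets V Y P ∧ Meets V Y Q := by
  classical
  by_cases hfin : {n ∈ A | Y ⊆ V n}.Infinite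
  · -- split an infinite set
    obtain ⟨K, hK1, hK2, hK3⟩ : ∃ K ⊆ {n ∈ A | Y ⊆ V n}, K.Infinite ∧
        ({n ∈ A | Y ⊆ V n} \ K).Infinite := by
      obtain ⟨f, hf, hfm⟩ : ∃ f : ℕ → ℕ, Function.Injective f ∧ ∀ k, f k ∈ {n ∈ A | Y ⊆ V n} := by
        have := hfin.to_subtype
        let g := Infinite.natEmbedding {n ∈ A | Y ⊆ V n}
        exact ⟨fun k => (g k : ℕ), fun a b h => g.injective (Subtype.ext h), fun k => (g k).2⟩
      refine ⟨range (fun k => f (2 * k)), ?_, ?_, ?_⟩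
      · rintro _ ⟨k, rfl⟩; exact hfm _
      · exact infinite_range_of_injective (fun a b h => by have := hf h; omega)
      · refine (infinite_range_of_injective (f := fun k => f (2 * k + 1))
          (fun a b h => by have := hf h; omega)).mono ?_
        rintro _ ⟨k, rfl⟩
        refine ⟨hfm _, ?_⟩
        rintro ⟨j, hj⟩
        have := hf hj
        omega
    refine ⟨K, A \ K, hK1.trans (fun n hn => hn.1), sdiff_subset, disjoint_sdiff_right, ?_, ?_, ?_⟩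
    · intro n hn
      by_cases h : n ∈ K
      · exact Or.inl h
      · exact Or.inr ⟨hn, h⟩
    · intro y hy
      exact hK2.mono (fun n hn => ⟨hn, (hK1 hn).2 hy⟩)
    · intro y hy
      exact hK3.mono (fun n hn => ⟨⟨hn.1.1, hn.2⟩, hn.1.2 hy⟩)
  · rw [Set.not_infinite] at hfin
    set A' := A \ {n ∈ A | Y ⊆ V n} with hA'
    have hbig : Big V X A' := hA.diff_finite hfin
    let U : Set (Set ℝ) := (fun n => V n ∩ Y) '' A'
    have hcov : IsOmegaCover Y U := by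
      refine ⟨⟨?_, ?_, ?_⟩, ?_⟩
      · rintro _ ⟨n, -, rfl⟩
        obtain ⟨O, hO, hV⟩ := hopen n
        refine ⟨O, hO, ?_⟩
        show V n ∩ Y = O ∩ Y
        rw [hV, inter_assoc, inter_eq_self_of_subset_right hYX]
      · apply Subset.antisymm
        · rintro x ⟨_, ⟨n, -, rfl⟩, hx⟩
          exact hx.2
        · intro x hx
          obtain ⟨n, hn, hxn⟩ := (hbig {x} (finite_singleton x)
            (singleton_subset_iff.mpr (hYX hx))).nonempty
          exact ⟨V n ∩ Y, ⟨n, hn, rfl⟩, hxn rfl, hx⟩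
      · rintro ⟨n, hn, hnY⟩
        apply hn.2
        refine ⟨hn.1, ?_⟩
        have h1 : V n ∩ Y = Y := hnY
        exact inter_eq_right.mp h1
      · intro F hF hFY
        obtain ⟨n, hn, hFn⟩ := (hbig F hF (hFY.trans hYX)).nonempty
        exact ⟨V n ∩ Y, ⟨n, hn, rfl⟩, subset_inter hFn hFY⟩
    obtain ⟨V₁, V₂, hunion, hdisj, ⟨V', hV', hlV⟩, ⟨W', hW', hlW⟩⟩ := hY _ hcov
    have key : ∀ T : Set (Set ℝ), T ⊆ U → (∃ T' ⊆ T, IsLargeCover Y T') →
        Meets V Y {n ∈ A' | V n ∩ Y ∈ T} := by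
      rintro T hT ⟨T', hT', hl⟩ y hy hcon
      apply hl.2 y hy
      refine (hcon.image (fun n => V n ∩ Y)).subset ?_
      rintro W ⟨hW, hyW⟩
      obtain ⟨n, hn, rfl⟩ := hT (hT' hW)
      exact ⟨n, ⟨⟨hn, hT' hW⟩, hyW.1⟩, rfl⟩
    have h1 := key V₁ (by rw [hunion]; exact subset_union_left) ⟨V', hV', hlV⟩
    have h2 := key V₂ (by rw [hunion]; exact subset_union_right) ⟨W', hW', hlW⟩
    refine ⟨{n ∈ A' | V n ∩ Y ∈ V₁}, A \ {n ∈ A' | V n ∩ Y ∈ V₁}, ?_, sdiff_subset,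
      disjoint_sdiff_right, ?_, h1, ?_⟩
    · rintro n ⟨hn, -⟩
      exact hn.1
    · intro n hn
      by_cases h : n ∈ {n ∈ A' | V n ∩ Y ∈ V₁}
      · exact Or.inl h
      · exact Or.inr ⟨hn, h⟩
    · intro y hy
      refine (h2 y hy).mono ?_
      rintro n ⟨⟨hn, hn2⟩, hyn⟩
      refine ⟨⟨hn.1, ?_⟩, hyn⟩
      rintro ⟨-, hn3⟩
      exact (Set.disjoint_left.mp hdisj) hn3 hn2

/-- One step of the construction. -/
theorem exists_step {V : ℕ → Set ℝ} {X Y : Set ℝ} (hopen : ∀ n, ∃ O, IsOpen O ∧ V n = O ∩ X)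
    (hY : SplitOmegaLarge Y) (hYX : Y ⊆ X) {A : Set ℕ} (hA : Big V X A) :
    ∃ P Q A' : Set ℕ, P ⊆ A ∧ Q ⊆ A ∧ A' ⊆ A ∧ Disjoint P Q ∧ Disjoint P A' ∧ Disjoint Q A' ∧
      Meets V Y P ∧ Meets V Y Q ∧ Big V X A' := by
  have step : ∀ {A : Set ℕ}, Big V X A → ∃ P B : Set ℕ, P ⊆ A ∧ B ⊆ A ∧ Disjoint P B ∧
      Meets V Y P ∧ Big V X B := by
    intro A hA
    obtain ⟨P, Q, hP, hQ, hd, hu, h1, h2⟩ := exists_halves hopen hY hYX hA
    rcases hA.or hu with h | h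
    · exact ⟨Q, P, hQ, hP, hd.symm, h2, h⟩
    · exact ⟨P, Q, hP, hQ, hd, h1, h⟩
  obtain ⟨P, B, hP, hB, hd, h1, h2⟩ := step hA
  obtain ⟨Q, C, hQ, hC, hd', h3, h4⟩ := step h2
  exact ⟨P, Q, C, hP, hQ.trans hB, hC.trans hB, hd.mono_right hQ, hd.mono_right hC, hd', h1, h3, h4⟩

/-- The union of countably many sets of reals with the property has the property. -/
theorem split_iUnion {Y : ℕ → Set ℝ} (hY : ∀ k, SplitOmegaLarge (Y k)) :
    SplitOmegaLarge (⋃ k, Y k) := by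
  classical
  intro U hU
  obtain ⟨V, hinj, hVU, hF⟩ := exists_seq hU
  set X := ⋃ k, Y k with hX
  have hopen : ∀ n, ∃ O, IsOpen O ∧ V n = O ∩ X := fun n => hU.1.isOpen _ (hVU n)
  have h0 : Big V X univ := by
    intro F hFf hFX
    refine (hF F hFf hFX).mono (fun n hn => ⟨trivial, hn⟩)
  have stepex : ∀ (k : ℕ) (A : {A : Set ℕ // Big V X A}), ∃ P Q : Set ℕ,
      ∃ A' : {A : Set ℕ // Big V X A}, P ⊆ A.1 ∧ Q ⊆ A.1 ∧ A'.1 ⊆ A.1 ∧ Disjoint P Q ∧
      Disjoint P A'.1 ∧ Disjoint Q A'.1 ∧ Meets V (Y k) P ∧ Meets V (Y k) Q := by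
    intro k A
    obtain ⟨P, Q, A', h1, h2, h3, h4, h5, h6, h7, h8, h9⟩ :=
      exists_step hopen (hY k) (subset_iUnion Y k) A.2
    exact ⟨P, Q, ⟨A', h9⟩, h1, h2, h3, h4, h5, h6, h7, h8⟩
  choose P Q N hP hQ hN hPQ hPN hQN hMP hMQ using stepex
  let A : ℕ → {A : Set ℕ // Big V X A} := fun k =>
    Nat.rec ⟨univ, h0⟩ (fun k A => N k A) k
  have hA : ∀ k, A (k + 1) = N k (A k) := fun k => rfl
  have hmono : ∀ j k, j ≤ k → (A k).1 ⊆ (A j).1 := by
    intro j k hjk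
    induction k, hjk using Nat.le_induction with
    | base => exact Subset.rfl
    | succ k hk ih => exact ((hA k) ▸ hN k (A k)).trans ih
  let G : Set ℕ := ⋃ k, P k (A k)
  have hdisj : ∀ j k, Disjoint (P j (A j)) (Q k (A k)) := by
    intro j k
    rcases lt_trichotomy j k with h | h | h
    · have h1 : Q k (A k) ⊆ N j (A j) := by
        rw [← hA]; exact (hQ k (A k)).trans (hmono _ _ h)
      exact (hPN j (A j)).mono_right h1
    · subst h; exact hPQ j (A j)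
    · have h1 : P j (A j) ⊆ N k (A k) := by
        rw [← hA]; exact (hP j (A j)).trans (hmono _ _ h)
      exact ((hQN k (A k)).mono_right h1).symm
  refine split_of_index hU.1 hinj hVU (A := G) ?_ ?_
  · intro x hx
    obtain ⟨k, hk⟩ := mem_iUnion.mp hx
    refine (hMP k (A k) x hk).mono ?_
    rintro n ⟨hn, hxn⟩
    exact ⟨mem_iUnion.mpr ⟨k, hn⟩, hxn⟩
  · intro x hx
    obtain ⟨k, hk⟩ := mem_iUnion.mp hx
    refine (hMQ k (A k) x hk).mono ?_
    rintro n ⟨hn, hxn⟩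
    refine ⟨?_, hxn⟩
    intro hG
    obtain ⟨j, hj⟩ := mem_iUnion.mp hG
    exact (Set.disjoint_left.mp (hdisj j k)) hj hn

theorem split_empty : SplitOmegaLarge ∅ := by
  intro U hU
  exact absurd (infinite_of_cover hU) (by simp)

theorem aleph_one_le_addSplit : ℵ₁ ≤ addSplit := by
  obtain ⟨F0, -, h1, h2⟩ := exists_family
  refine le_csInf ⟨_, F0, rfl, h1, h2⟩ ?_
  rintro κ ⟨F, rfl, hF, hnot⟩
  by_contra hcon
  rw [not_le, ← succ_aleph0, Order.lt_succ_iff, le_aleph0_iff_set_countable] at hcon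
  apply hnot
  by_cases hne : F.Nonempty
  · obtain ⟨f, hf⟩ := hcon.exists_eq_range hne
    rw [hf, sUnion_range]
    exact split_iUnion (fun k => hF _ (hf ▸ mem_range_self k))
  · rw [not_nonempty_iff_eq_empty] at hne
    subst hne
    rw [sUnion_empty]
    exact split_empty

end Pool.Agent.U69.SP
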