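import Pool.Agent.U69.SP.Basic

set_option autoImplicit false

namespace Pool.Agent.U69.SP

open Cardinal Set

/-- A copy of the Cantor space in the reals. -/
theorem exists_cantor : ∃ e : (ℕ → Bool) → ℝ, Topology.IsEmbedding e := by
  obtain ⟨f, -, hf, hinj⟩ := Perfect.exists_nat_bool_injection (C := (univ : Set ℝ))
    (PerfectSpace.univ_perfect ℝ) univ_nonempty
  exact ⟨f, (hf.isClosedEmbedding hinj).isEmbedding⟩

/-- The characteristic function. -/
noncomputable def chi (b : Set ℕ) : ℕ → Bool := by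
  classical exact fun n => decide (n ∈ b)

theorem chi_true (b : Set ℕ) (n : ℕ) : chi b n = true ↔ n ∈ b := by simp [chi]

theorem chi_injective : Function.Injective chi := by
  intro a b h
  ext n
  rw [← chi_true, ← chi_true, h]

/-- The copy in the reals of a base of a nonprincipal ultrafilter does not have the property. -/
theorem not_split_of_base {e : (ℕ → Bool) → ℝ} (he : Topology.IsEmbedding e) {B : Set (Set ℕ)}
    (hB : IsUltrafilterBase B) : ¬ SplitOmegaLarge ((fun b => e (chi b)) '' B) := by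
  obtain ⟨u, hu, hBu, hub⟩ := hB
  set X : Set ℝ := (fun b => e (chi b)) '' B with hX
  have hinj : Function.Injective (fun b : Set ℕ => e (chi b)) := he.injective.comp chi_injective
  let W : ℕ → Set ℝ := fun n => (fun b => e (chi b)) '' {b ∈ B | n ∈ b}
  have hmemW : ∀ b ∈ B, ∀ n, e (chi b) ∈ W n ↔ n ∈ b := by
    intro b hb n
    constructor
    · rintro ⟨c, ⟨hc, hn⟩, hcb⟩
      exact hinj hcb ▸ hn
    · intro hn
      exact ⟨b, ⟨hb, hn⟩, rfl⟩
  have hWX : ∀ n, W n ⊆ X := by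
    rintro n _ ⟨b, ⟨hb, -⟩, rfl⟩
    exact ⟨b, hb, rfl⟩
  have hopen : ∀ n, ∃ O : Set ℝ, IsOpen O ∧ W n = O ∩ X := by
    intro n
    have h1 : IsOpen {x : ℕ → Bool | x n = true} := by
      have : {x : ℕ → Bool | x n = true} = (fun x : ℕ → Bool => x n) ⁻¹' {true} := by
        ext x; simp
      rw [this]
      exact (isOpen_discrete _).preimage (continuous_apply n)
    obtain ⟨O, hO, hOe⟩ := he.isInducing.isOpen_iff.mp h1
    refine ⟨O, hO, ?_⟩
    ext r
    constructor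
    · rintro ⟨b, ⟨hb, hn⟩, rfl⟩
      refine ⟨?_, ⟨b, hb, rfl⟩⟩
      have : chi b ∈ e ⁻¹' O := by rw [hOe]; exact (chi_true b n).mpr hn
      exact this
    · rintro ⟨hr, ⟨b, hb, rfl⟩⟩
      refine ⟨b, ⟨hb, ?_⟩, rfl⟩
      have : chi b ∈ e ⁻¹' O := hr
      rw [hOe] at this
      exact (chi_true b n).mp this
  have hprop : ∀ n, ∃ x ∈ X, x ∉ W n := by
    intro n
    have h1 : ({n} : Set ℕ)ᶜ ∈ u := by
      rw [Ultrafilter.compl_mem_iff_notMem]
      exact hu n
    obtain ⟨b, hb, hbn⟩ := hub _ h1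
    refine ⟨e (chi b), ⟨b, hb, rfl⟩, ?_⟩
    rw [hmemW b hb]
    intro hn
    exact hbn hn rfl
  have hom : IsOmegaCover X (range W) := by
    have hfin : ∀ F : Set ℝ, F.Finite → F ⊆ X → ∃ n, F ⊆ W n := by
      intro F hF hFX
      have key : ∀ x ∈ F, ∃ b ∈ B, e (chi b) = x := fun x hx => hFX hx
      choose! b hb hbx using key
      have h1 : (⋂ x ∈ F, b x) ∈ u := by
        have := (Filter.biInter_mem hF (s := b) (f := (u : Filter ℕ))).mpr
          (fun x hx => hBu _ (hb x hx))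
        exact this
      obtain ⟨n, hn⟩ := Ultrafilter.nonempty_of_mem h1
      rw [mem_iInter₂] at hn
      refine ⟨n, fun x hx => ?_⟩
      rw [← hbx x hx, hmemW _ (hb x hx)]
      exact hn x hx
    refine ⟨⟨?_, ?_, ?_⟩, ?_⟩
    · rintro _ ⟨n, rfl⟩
      exact hopen n
    · apply Subset.antisymm
      · rintro x ⟨_, ⟨n, rfl⟩, hx⟩
        exact hWX n hx
      · intro x hx
        obtain ⟨n, hn⟩ := hfin {x} (finite_singleton x) (singleton_subset_iff.mpr hx)
        exact ⟨W n, ⟨n, rfl⟩, hn rfl⟩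
    · rintro ⟨n, hn⟩
      obtain ⟨x, hx, hxn⟩ := hprop n
      rw [hn] at hxn
      exact hxn hx
    · intro F hF hFX
      obtain ⟨n, hn⟩ := hfin F hF hFX
      exact ⟨W n, ⟨n, rfl⟩, hn⟩
  intro hsplit
  obtain ⟨V₁, V₂, hunion, hdisj, ⟨V', hV', hlV⟩, ⟨W', hW', hlW⟩⟩ := hsplit _ hom
  -- the members of a large subfamily meet all the sets of the base
  have key : ∀ T : Set (Set ℝ), T ⊆ range W → (∃ T' ⊆ T, IsLargeCover X T') →
      {n | W n ∉ T} ∉ u := by
    intro T hT ⟨T', hT', hl⟩ hmem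
    obtain ⟨b, hb, hbT⟩ := hub _ hmem
    have hx : e (chi b) ∈ ⋃₀ T' := by
      rw [hl.1.cover]; exact ⟨b, hb, rfl⟩
    obtain ⟨V, hV, hxV⟩ := hx
    obtain ⟨n, rfl⟩ := hT (hT' hV)
    rw [hmemW b hb] at hxV
    exact hbT hxV (hT' hV)
  have h1 := key V₁ (by rw [hunion]; exact subset_union_left) ⟨V', hV', hlV⟩
  have h2 := key V₂ (by rw [hunion]; exact subset_union_right) ⟨W', hW', hlW⟩
  have h3 : {n | W n ∉ V₁}ᶜ ∈ u := by
    rw [Ultrafilter.compl_mem_iff_notMem]; exact h1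
  apply h2
  refine Filter.mem_of_superset h3 ?_
  intro n hn hn2
  have hn1 : W n ∈ V₁ := by
    by_contra hcon
    exact hn hcon
  exact (Set.disjoint_left.mp hdisj) hn1 hn2

/-- The class of the bases of nonprincipal ultrafilters is not empty. -/
theorem exists_base : ∃ B : Set (Set ℕ), #B = ultrafilterNumber ∧ IsUltrafilterBase B := by
  have : {κ : Cardinal.{0} | ∃ B : Set (Set ℕ), #B = κ ∧ IsUltrafilterBase B}.Nonempty := by
    let u : Ultrafilter ℕ := Filter.hyperfilter ℕ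
    refine ⟨_, {b | b ∈ u}, rfl, u, ?_, fun b hb => hb, fun a ha => ⟨a, ha, Subset.rfl⟩⟩
    intro n hn
    have h1 : ({n} : Set ℕ)ᶜ ∈ u := (finite_singleton n).compl_mem_hyperfilter
    rw [Ultrafilter.compl_mem_iff_notMem] at h1
    exact h1 hn
  exact csInf_mem this

theorem aleph0_le_ultrafilterNumber : ℵ₀ ≤ ultrafilterNumber := by
  obtain ⟨B, hB, u, hu, hBu, hub⟩ := exists_base
  rw [← hB]
  by_contra hcon
  rw [not_le, lt_aleph0_iff_set_finite] at hcon
  have h1 : (⋂ b ∈ B, b) ∈ u :=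
    (Filter.biInter_mem hcon (s := fun b => b) (f := (u : Filter ℕ))).mpr (fun x hx => hBu _ hx)
  obtain ⟨n, hn⟩ := Ultrafilter.nonempty_of_mem h1
  rw [mem_iInter₂] at hn
  have h2 : ({n} : Set ℕ)ᶜ ∈ u := by
    rw [Ultrafilter.compl_mem_iff_notMem]
    exact hu n
  obtain ⟨b, hb, hbn⟩ := hub _ h2
  exact hbn (hn b hb) rfl

/-- `add(Split(Ω, Λ)) ≤ cf(𝔲)`, and the bound is attained by a family in the definition. -/
theorem exists_family : ∃ F : Set (Set ℝ), #F ≤ ultrafilterNumber.ord.cof ∧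
    (∀ X ∈ F, SplitOmegaLarge X) ∧ ¬ SplitOmegaLarge (⋃₀ F) := by
  obtain ⟨e, he⟩ := exists_cantor
  obtain ⟨B, hB, hbase⟩ := exists_base
  have hinj : Function.Injective (fun b : Set ℕ => e (chi b)) := he.injective.comp chi_injective
  set X : Set ℝ := (fun b => e (chi b)) '' B with hX
  have hXc : #X = ultrafilterNumber := by rw [hX, mk_image_eq hinj, hB]
  -- enumerate
  set u := ultrafilterNumber with hu
  have hcard : #(u.ord.ToType) = #X := by rw [hXc]; simp
  obtain ⟨φ⟩ := Cardinal.eq.mp hcard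
  obtain ⟨S, hS, hSc⟩ := Order.exists_cof_eq u.ord.ToType
  rw [Ordinal.cof_toType] at hSc
  let P : u.ord.ToType → Set ℝ := fun s => (fun i => (φ i : ℝ)) '' Iic s
  refine ⟨P '' S, mk_image_le.trans hSc.le, ?_, ?_⟩
  · rintro _ ⟨s, -, rfl⟩
    apply split_of_card_lt
    refine lt_of_le_of_lt mk_image_le ?_
    have h0 : ℵ₀ ≤ u := aleph0_le_ultrafilterNumber
    have h1 : #(Iio s) < u := by
      have := mk_Iio_ord_toType s
      exact this
    have h2 : (Iic s : Set u.ord.ToType) = insert s (Iio s) := by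
      ext t; simp [le_iff_eq_or_lt]
    rw [h2]
    refine lt_of_le_of_lt (mk_insert_le) ?_
    exact add_lt_of_lt h0 h1 (one_lt_aleph0.trans_le h0)
  · have : ⋃₀ (P '' S) = X := by
      apply Subset.antisymm
      · rintro _ ⟨_, ⟨s, -, rfl⟩, ⟨i, -, rfl⟩⟩
        exact (φ i).2
      · intro x hx
        obtain ⟨s, hs, his⟩ := hS (φ.symm ⟨x, hx⟩)
        exact ⟨P s, ⟨s, hs, rfl⟩, ⟨φ.symm ⟨x, hx⟩, his, by simp⟩⟩
    rw [this]
    exact not_split_of_base he hbase

theorem addSplit_le : addSplit ≤ ultrafilterNumber.ord.cof := by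
  obtain ⟨F, hF, h1, h2⟩ := exists_family
  have h : addSplit ≤ #F := csInf_le' (show #F ∈ {κ | ∃ F : Set (Set ℝ), #F = κ ∧
    (∀ X ∈ F, SplitOmegaLarge X) ∧ ¬ SplitOmegaLarge (⋃₀ F)} from ⟨F, rfl, h1, h2⟩)
  exact h.trans hF

end Pool.Agent.U69.SP
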